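import Mathlib
import Pool.Agent.Run7.h742.SZ.Ws

/-! A bound of Shafarevich type, linear in `log N`, for the abelian schemes over `ℤ[1 / N]` which are
Weil restrictions (and products of Weil restrictions) of elliptic curves over arbitrary number fields
with invariants in the values of a rational function at the integral points of affine space.

Let `A` be an abelian scheme over `Spec ℤ[1 / N]` whose generic fibre is a Weil restriction
`Res_{L/ℚ} E`, where `L` is ANY number field of degree `d` and `E` is ANY elliptic curve over `L`. As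
`A` has good reduction outside `N`, so has `E` (Néron-Ogg-Shafarevich; also `N_A = N(f_E) D_L ^ 2`,
Milne). Here `h_F(A) = d h_F(E)` (stable heights), and `12 d h_F(E)` is the sum of `log max(|j|_v, 1)`
over the finite places `v` of `L` and of the archimedean terms. -/

set_option autoImplicit false

namespace Pool.Agent.Results.MP_07b2d0_nt.IntegralPointsWeilRestrictions

open MvPolynomial NumberField IsDedekindDomain

/-- the modular invariant `j(τ) = E₄(τ) ^ 3 / Δ(τ) = 1 / q + 744 + ⋯` -/
noncomputable def jInv (τ : UpperHalfPlane) : ℂ :=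
  ModularForm.E₄ τ ^ 3 / ModularForm.discriminant τ

/-- the archimedean term `- log (|Δ(τ)| (Im τ) ^ 6)` of the Faltings height -/
noncomputable def arch (τ : UpperHalfPlane) : ℝ :=
  -Real.log (‖ModularForm.discriminant τ‖ * τ.im ^ 6)

/-- the points `τ w` have modular invariant `j` -/
def IsPeriod {L : Type} [Field L] [NumberField L] (j : L)
    (τ : InfinitePlace L → UpperHalfPlane) : Prop := ∀ w, jInv (τ w) = w.embedding j

/-- the stable Faltings height of the Weil restriction `A = Res_{L/ℚ} E` of an elliptic curve `E`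
over `L` of invariant `j`, where the points `τ w` have invariant `j` (up to an absolute multiple of
`[L : ℚ] = dim A` which depends on the normalisation of the metric only): `12 h_F(A)` is the sum of
`log max(|j|_v, 1)` over the finite places `v` of `L`, the stable discriminant of `E`, and of the
archimedean terms -/
noncomputable def stableHeight {L : Type} [Field L] [NumberField L] (j : L)
    (τ : InfinitePlace L → UpperHalfPlane) : ℝ :=
  (∑ᶠ v : HeightOneSpectrum (𝓞 L), Real.log (max (FinitePlace.mk v j) 1) +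
    ∑ w : InfinitePlace L, (w.mult : ℝ) * arch (τ w)) / 12

/-- good reduction at `v`: some Weierstrass equation over `L` of the curve is integral at `v` and
has a discriminant which is a unit at `v` -/
def GoodAt {L : Type} [Field L] [NumberField L] (v : HeightOneSpectrum (𝓞 L))
    (E : WeierstrassCurve L) : Prop :=
  ∃ C : WeierstrassCurve.VariableChange L,
    v.valuation L (C • E).a₁ ≤ 1 ∧ v.valuation L (C • E).a₂ ≤ 1 ∧ v.valuation L (C • E).a₃ ≤ 1 ∧
    v.valuation L (C • E).a₄ ≤ 1 ∧ v.valuation L (C • E).a₆ ≤ 1 ∧ v.valuation L (C • E).Δ = 1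

/-- good reduction at all primes of `L` which do not divide `N` -/
def GoodOutside {L : Type} [Field L] [NumberField L] (N : ℕ) (E : WeierstrassCurve L) : Prop :=
  ∀ v : HeightOneSpectrum (𝓞 L), (N : 𝓞 L) ∉ v.asIdeal → GoodAt v E

/-- `max |x_j|` -/
def H {n : ℕ} (x : Fin (n + 1) → ℤ) : ℕ := Finset.univ.sup fun j => (x j).natAbs

/-- the rational points of the affine space `𝔸^n = ℙ^n ∖ {x 0 = 0}` with denominator in `M` and
with `H x ≤ B`: the point `(x 1 / x 0, …, x n / x 0)` is given by its coprime integer coordinates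
with `x 0 > 0`, and `x 0` is its denominator. `M = {1}`: the integral points -/
def Points (n : ℕ) (M : Set ℕ) (B : ℕ) : Set (Fin (n + 1) → ℤ) :=
  {x | Finset.univ.gcd x = 1 ∧ 0 < x 0 ∧ (x 0).toNat ∈ M ∧ H x ≤ B}

/-- `F`, `G` are forms of degree `D` in `x 0, …, x n`, so `F / G` is a rational function on `𝔸^n`,
and its poles contain the distinct hypersurfaces `P j = 0` of degree `k j`, irreducible over `ℚ`,
none of which is the hyperplane `x 0 = 0`: `P j` divides `G` and does not divide `F` -/
structure IsInvariant {n q : ℕ} (D : ℕ) (F G : MvPolynomial (Fin (n + 1)) ℤ)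
    (P : Fin q → MvPolynomial (Fin (n + 1)) ℤ) (k : Fin q → ℕ) : Prop where
  hF : F.IsHomogeneous D
  hG : G.IsHomogeneous D
  hP : ∀ j, (P j).IsHomogeneous (k j)
  irreducible : ∀ j, Irreducible (map (Int.castRingHom ℚ) (P j))
  distinct : ∀ i j, i ≠ j →
    ¬ Associated (map (Int.castRingHom ℚ) (P i)) (map (Int.castRingHom ℚ) (P j))
  affine : ∀ j, ¬ Associated (map (Int.castRingHom ℚ) (P j)) (X 0)
  dvd : ∀ j, map (Int.castRingHom ℚ) (P j) ∣ map (Int.castRingHom ℚ) G
  not_dvd : ∀ j, ¬ map (Int.castRingHom ℚ) (P j) ∣ map (Int.castRingHom ℚ) F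

/-- the weight of the poles: a pole of degree `1` counts for `1`, a pole of degree at least `2`
counts for `2` -/
def weight {q : ℕ} (k : Fin q → ℕ) : ℝ := ∑ j, ((min (k j) 2 : ℕ) : ℝ)

/-- `E` is an elliptic curve over `L` with invariant `F (x) / G (x)`, the `τ w` are its periods, and
`E` has good reduction outside `N` (which is the case if `Res_{L/ℚ} E` extends to an abelian scheme
over `Spec ℤ[1 / N]`) -/
def Admissible {n : ℕ} (F G : MvPolynomial (Fin (n + 1)) ℤ) (x : Fin (n + 1) → ℤ) {L : Type}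
    [Field L] [NumberField L] (E : WeierstrassCurve L) (τ : InfinitePlace L → UpperHalfPlane)
    (N : ℕ) : Prop :=
  eval x G ≠ 0 ∧ E.Δ ≠ 0 ∧ E.c₄ ^ 3 / E.Δ = ((eval x F : ℤ) : L) / ((eval x G : ℤ) : L) ∧
    IsPeriod (E.c₄ ^ 3 / E.Δ) τ ∧ GoodOutside N E

/-- the points `x` for which `h_F(A) + c₀ d ≤ κ d log N` fails for some `N ≠ 0` and some Weil
restriction `A = Res_{L/ℚ} E` of dimension `d = [L : ℚ]`, where `L` is a number field and `E` an
elliptic curve over `L` with invariant `F (x) / G (x)` and good reduction outside `N` -/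
def Failures {n : ℕ} (F G : MvPolynomial (Fin (n + 1)) ℤ) (κ c₀ : ℝ) :
    Set (Fin (n + 1) → ℤ) :=
  {x | x 0 ≠ 0 ∧ ∃ (L : Type) (_ : Field L) (_ : NumberField L) (E : WeierstrassCurve L)
    (τ : InfinitePlace L → UpperHalfPlane) (N : ℕ), N ≠ 0 ∧ Admissible F G x E τ N ∧
      κ * Module.finrank ℚ L * Real.log N <
        stableHeight (E.c₄ ^ 3 / E.Δ) τ + c₀ * Module.finrank ℚ L}

/-- the proportion of the points of `Q` among the points with denominators in `M` of height at most
`B` is at most a negative power of `B`, uniformly in the set `M` -/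
def PowerSaving (n : ℕ) (Q : Set (Fin (n + 1) → ℤ)) : Prop :=
  ∃ δ : ℝ, 0 < δ ∧ ∃ C : ℝ, 0 < C ∧ ∀ B : ℕ, 1 ≤ B → ∀ M : Set ℕ,
    ((Points n M B ∩ Q).ncard : ℝ) ≤ C * (B : ℝ) ^ (-δ) * ((Points n M B).ncard : ℝ)

theorem sh_eq {L : Type} [Field L] [NumberField L] (j : L)
    (τ : InfinitePlace L → UpperHalfPlane) :
    Run7.h742.WS.sh j τ = 12 * stableHeight j τ := by
  have : stableHeight j τ = Run7.h742.WS.sh j τ / 12 := rfl
  rw [this]
  ring

/-- **A Shafarevich bound, linear in `log N`, at almost all integral points.** Let `n ≥ 1` be the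
number of the variables and `j = F / G` an invariant of degree `D` whose poles have the weight `ω`.
(1) The sets `Points n M B` are finite, and the number of the points of one denominator `d ≤ B` is
at least `c B ^ (n - δ)` for every `δ > 0`.
(2) For `κ > D / (12 ω)` and every `c₀` the bound `h_F(A) + c₀ d ≤ κ d log N` holds for all `N`, ALL
number fields `L` and ALL elliptic curves `E` over `L` with invariant `j (x)` and good reduction
outside `N`, `A = Res_{L/ℚ} E`, `d = dim A`, for all points `x` outside a set which contains a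
power-saving proportion of the points, uniformly in the set `M` of the denominators.
(3) There is one set `E₀` of relative density zero among the points with denominators in `M`,
uniformly in `M`, such that for all invariants `j` of `n` variables and all `κ > D / (12 ω)`, with a
constant `C` which depends on `j` and `κ` only, all products `A = ∏ (Res_{L_i/ℚ} E_i) ^ (m_i)` of
dimension `g = ∑ m_i [L_i : ℚ]`, where the `L_i` are any number fields and the `E_i` any elliptic
curves over `L_i` with invariants `j (x_i)`, `x_i ∉ E₀`, and good reduction outside `N`, satisfy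
`h_F(A) ≤ κ g log N + C g`. -/
theorem result : ∀ n : ℕ, 1 ≤ n →
    ((∀ (M : Set ℕ) (B : ℕ), (Points n M B).Finite) ∧
      (∀ δ : ℝ, 0 < δ → ∃ c : ℝ, 0 < c ∧ ∀ B d : ℕ, 1 ≤ d → d ≤ B →
        c * (B : ℝ) ^ ((n : ℝ) - δ) ≤ ((Points n {d} B).ncard : ℝ))) ∧
    (∀ (D q : ℕ) (F G : MvPolynomial (Fin (n + 1)) ℤ)
      (P : Fin q → MvPolynomial (Fin (n + 1)) ℤ) (k : Fin q → ℕ), IsInvariant D F G P k →
      ∀ κ : ℝ, (D : ℝ) < 12 * κ * weight k → ∀ c₀ : ℝ, PowerSaving n (Failures F G κ c₀)) ∧
    ∃ E₀ : Set (Fin (n + 1) → ℤ),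
      (∀ ε : ℝ, 0 < ε → ∃ B₀ : ℕ, ∀ B : ℕ, B₀ ≤ B → ∀ M : Set ℕ,
        ((Points n M B ∩ E₀).ncard : ℝ) ≤ ε * ((Points n M B).ncard : ℝ)) ∧
      ∀ (D q : ℕ) (F G : MvPolynomial (Fin (n + 1)) ℤ)
        (P : Fin q → MvPolynomial (Fin (n + 1)) ℤ) (k : Fin q → ℕ), IsInvariant D F G P k →
        ∀ κ : ℝ, (D : ℝ) < 12 * κ * weight k → ∃ C : ℝ, ∀ (r : ℕ)
          (x : Fin r → Fin (n + 1) → ℤ), (∀ i, x i 0 ≠ 0 ∧ x i ∉ E₀) →
          ∀ (L : Fin r → Type) [∀ i, Field (L i)] [∀ i, NumberField (L i)]
            (E : ∀ i, WeierstrassCurve (L i)) (τ : ∀ i, InfinitePlace (L i) → UpperHalfPlane)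
            (m : Fin r → ℕ) (N : ℕ), N ≠ 0 → (∀ i, Admissible F G (x i) (E i) (τ i) N) →
            ∑ i, (m i : ℝ) * stableHeight ((E i).c₄ ^ 3 / (E i).Δ) (τ i) ≤
              κ * (∑ i, m i * Module.finrank ℚ (L i) : ℕ) * Real.log N +
                C * (∑ i, m i * Module.finrank ℚ (L i) : ℕ) := by
  intro n hn
  have hinv : ∀ (D q : ℕ) (F G : MvPolynomial (Fin (n + 1)) ℤ)
      (P : Fin q → MvPolynomial (Fin (n + 1)) ℤ) (k : Fin q → ℕ), IsInvariant D F G P k →
      Run7.h742.SZ.Inv D F G P k := fun D q F G P k h =>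
    ⟨h.hF, h.hG, ⟨h.hP, h.irreducible, h.distinct, h.affine⟩, h.dvd, h.not_dvd⟩
  refine ⟨⟨fun M B => Run7.h742.VI.Pts_finite n M B, fun δ hδ => Run7.h742.VI.Pts_lower hn hδ⟩,
    fun D q F G P k h κ hκ c₀ => ?_, ?_⟩
  · refine (Run7.h742.WS.fail_ps hn (hinv D q F G P k h) hκ c₀).mono ?_
    rintro x ⟨hx, L, iF, iN, E, τ, N, hN, hE, hlt⟩
    refine ⟨hx, L, iF, iN, E, τ, N, hN, hE, ?_⟩
    rw [sh_eq]
    linarith
  · obtain ⟨E₀, hE₀, hall⟩ := Run7.h742.WS.univ hn
    refine ⟨E₀, hE₀, fun D q F G P k h κ hκ => ?_⟩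
    obtain ⟨C, -, hC⟩ := hall D q F G P k (hinv D q F G P k h) κ hκ
    refine ⟨C, fun r x hx L _ _ E τ m N hN hA => ?_⟩
    have h1 : ∀ i, (m i : ℝ) * stableHeight ((E i).c₄ ^ 3 / (E i).Δ) (τ i) ≤
        (m i : ℝ) * (κ * Module.finrank ℚ (L i) * Real.log N +
          C * Module.finrank ℚ (L i)) := by
      intro i
      refine mul_le_mul_of_nonneg_left ?_ (Nat.cast_nonneg _)
      have h2 := hC (x i) (hx i).1 (hx i).2 (L i) (E i) (τ i) N hN (hA i)
      rw [sh_eq] at h2
      linarith
    refine (Finset.sum_le_sum fun i _ => h1 i).trans (le_of_eq ?_)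
    push_cast
    rw [Finset.mul_sum, Finset.mul_sum, Finset.sum_mul, ← Finset.sum_add_distrib]
    refine Finset.sum_congr rfl fun i _ => ?_
    ring

end Pool.Agent.Results.MP_07b2d0_nt.IntegralPointsWeilRestrictions
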