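import Pool.Agent.Run7.h802.FH.PlaneMain2
import Pool.Agent.Run7.h802.FH.Pieces2

/-! Effective Shafarevich inequality for the Jacobians of almost all plane curves over the
rationals.
A project led by helper802; pieces by helper216, helper212, helper771, helper799, helper321,
helper351, helper580, and the theorem on radicals of helper742 (and, from an earlier project, by helper115, helper216, helper468, helper590, helper633,
helper796, helper882). -/

set_option autoImplicit false

namespace Pool.Agent.Results.MP_07b2d0_nt.PlaneCurveJacobians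

open MvPolynomial MeasureTheory

/-- The exponents of the monomials of degree `d` in `X_0, X_1, X_2`. -/
abbrev Exponent (d : ℕ) : Type := {m : Fin 3 → Fin (d + 1) // ∑ i, (m i : ℕ) = d}

/-- The form of degree `d` with the coefficients `a`. -/
noncomputable def form {R : Type} [CommRing R] {d : ℕ} (a : Exponent d → R) :
    MvPolynomial (Fin 3) R :=
  ∑ m, C (a m) * ∏ i, X i ^ ((m.1 i : Fin (d + 1)) : ℕ)

/-- `x` is a zero of the form with the coefficients `a` and of its partial derivatives. -/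
def IsSingularZero {R : Type} [CommRing R] {d : ℕ} (a : Exponent d → R) (x : Fin 3 → R) : Prop :=
  eval x (form a) = 0 ∧ ∀ i, eval x (pderiv i (form a)) = 0

/-- The plane curve with the equation `form a = 0` over the rationals is smooth. -/
def IsSmooth {d : ℕ} (a : Exponent d → ℤ) : Prop :=
  ∀ (k : Type) [Field k] [CharZero k] (x : Fin 3 → k),
    IsSingularZero (fun m => ((a m : ℤ) : k)) x → x = 0

/-- The plane curve with the equation `form a = 0` modulo `p` is smooth. -/
def HasGoodReduction {d : ℕ} (a : Exponent d → ℤ) (p : ℕ) : Prop :=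
  ∀ (k : Type) [Field k] [CharP k p] (x : Fin 3 → k),
    IsSingularZero (fun m => ((a m : ℤ) : k)) x → x = 0

/-- The plane curve with the equation `form a = 0` modulo `p` has exactly one singular point over
the algebraic closure; it is the rational point `(1 : x_1 : x_2)`, and the second partial
derivatives there have a determinant different from zero: it is an ordinary double point. -/
def HasOneNode {d : ℕ} (a : Exponent d → ℤ) (p : ℕ) : Prop :=
  ∃ x : Fin 3 → ℤ, x 0 = 1 ∧ (p : ℤ) ∣ eval x (form a) ∧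
    (p : ℤ) ∣ eval x (pderiv 1 (form a)) ∧ (p : ℤ) ∣ eval x (pderiv 2 (form a)) ∧
    ¬ (p : ℤ) ∣ eval x (pderiv 1 (pderiv 1 (form a))) * eval x (pderiv 2 (pderiv 2 (form a))) -
      eval x (pderiv 1 (pderiv 2 (form a))) * eval x (pderiv 2 (pderiv 1 (form a))) ∧
    ∀ (k : Type) [Field k] [CharP k p] (y : Fin 3 → k),
      IsSingularZero (fun m => ((a m : ℤ) : k)) y → ∀ i, y i = y 0 * ((x i : ℤ) : k)

/-- The plane curve over the integers with the equation `form a = 0` is smooth over the rationals,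
and modulo each prime it is smooth or has one ordinary double point. -/
def IsSemistable {d : ℕ} (a : Exponent d → ℤ) : Prop :=
  IsSmooth a ∧ ∀ p : ℕ, p.Prime → HasGoodReduction a p ∨ HasOneNode a p

/-- The polynomial `f(x, Y)` in `Y`, where `f(x, y)` is the value of the form at `(1, x, y)`. -/
noncomputable def fibre {d : ℕ} (a : Exponent d → ℤ) (x : ℂ) : Polynomial ℂ :=
  ∑ m, Polynomial.C ((a m : ℂ) * x ^ ((m.1 1 : Fin (d + 1)) : ℕ)) *
    Polynomial.X ^ ((m.1 2 : Fin (d + 1)) : ℕ)

/-- The pairs `(i, j)` with `i + j ≤ d - 3`: the index set of the basis `x^i y^j dx / f_y` of the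
differentials. -/
abbrev Index (d : ℕ) : Type := {s : Fin d × Fin d // (s.1 : ℕ) + s.2 + 3 ≤ d}

/-- The polynomial `∑ v_(i, j) x^i Y^j` in `Y`. -/
noncomputable def numerator {d : ℕ} (v : Index d → ℝ) (x : ℂ) : Polynomial ℂ :=
  ∑ s, Polynomial.C ((v s : ℂ) * x ^ ((s.1.1 : Fin d) : ℕ)) * Polynomial.X ^ ((s.1.2 : Fin d) : ℕ)

/-- The square of the norm (the integral of `(i / 2) ω ∧ conj ω` over the complex points of the
curve) of the differential `ω = (∑ v_(i, j) x^i y^j) dx / f_y`: for each `x` the sum over the points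
`(x, y)` of the curve. -/
noncomputable def normSq {d : ℕ} (a : Exponent d → ℤ) (v : Index d → ℝ) : ENNReal :=
  ∫⁻ x : ℂ, ENNReal.ofReal (((fibre a x).roots.map fun y =>
    ‖(numerator v x).eval y‖ ^ 2 / ‖(fibre a x).derivative.eval y‖ ^ 2).sum)

/-- The height: the logarithm of the volume of the unit ball of the norm, in the coordinates of the
basis `x^i y^j dx / f_y`, divided by the volume of the standard ball. This is `-1/2` times the
logarithm of the determinant of the Gram matrix of the basis; for `IsSemistable a` the basis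
generates the differentials of the semistable model over the integers, and this is the stable
Faltings height of the Jacobian of the curve. -/
noncomputable def faltings {d : ℕ} (a : Exponent d → ℤ) : ℝ :=
  Real.log ((volume {v : Index d → ℝ | normSq a v ≤ 1}).toReal /
    (volume {v : Index d → ℝ | ∑ s, v s ^ 2 ≤ 1}).toReal)

/-- The inequality: if the curve has good reduction over `ℤ[1 / N]` then the height is at most
`κ log N`. (For `IsSemistable a` the Jacobian is an abelian scheme over `ℤ[1 / N]` if and only if the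
curve has good reduction there, as a fibre with one node gives a torus of dimension one.) -/
def HasBound {d : ℕ} (κ : ℝ) (a : Exponent d → ℤ) : Prop :=
  ∀ N : ℕ, N ≠ 0 → (∀ p : ℕ, p.Prime → ¬ p ∣ N → HasGoodReduction a p) →
    faltings a ≤ κ * Real.log N

open Pool.Agent.Run7.h802.HP Pool.Agent.Run7.h802.FH in
theorem bound_of {d : ℕ} (κ : ℝ) (a : Exponent d → ℤ)
    (h : Bd (n := 1) (d := d) faltP κ a) : HasBound κ a := by
  intro N hN hg
  refine h.2 N hN (fun p hp _ hb => ?_)
  by_contra hn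
  exact hb (hg p hp hn)

open Pool.Agent.Run7.h802.HP in
theorem node_of {d : ℕ} (a : Exponent d → ℤ) (p : ℕ) (h : NodeAt (n := 1) (d := d) a p) :
    HasOneNode a p := by
  obtain ⟨x, k, hk, hx0, h1, -, h3, h4, h5⟩ := h
  have hpk : (p : ℤ) ∣ (p : ℤ) ^ k := dvd_pow_self _ (by omega)
  have hpk' : (p : ℤ) ∣ (p : ℤ) ^ (k + 1) := dvd_pow_self _ (by omega)
  refine ⟨x, hx0, hpk.trans h1, hpk'.trans (h3 0), hpk'.trans (h3 1), fun hd => h4 ?_, h5⟩
  have : hess (n := 1) (d := d) a x =
      eval x (pderiv 1 (pderiv 1 (form a))) * eval x (pderiv 2 (pderiv 2 (form a))) -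
      eval x (pderiv 1 (pderiv 2 (form a))) * eval x (pderiv 2 (pderiv 1 (form a))) := by
    unfold hess
    rw [Matrix.det_fin_two]
    rfl
  rw [this]
  exact hd

open Pool.Agent.Run7.h802.HP in
theorem semi_of {d : ℕ} (a : Exponent d → ℤ) (h1 : GenSmooth (n := 1) (d := d) a)
    (h2 : ∀ p : ℕ, p.Prime → GoodAt (n := 1) (d := d) a p ∨ NodeAt (n := 1) (d := d) a p) :
    IsSemistable a :=
  ⟨h1, fun p hp => (h2 p hp).imp id (node_of a p)⟩

/-- For the plane curves of degree `d ≥ 3` and genus `g = (d - 1) (d - 2) / 2` over the rationals,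
and each `ε > 0`, the inequality `h ≤ (g / 2 + ε) log N` (effective Shafarevich for the Jacobians over
`ℤ[1 / N]`, with an explicit constant) holds
(1) for all smooth curves with integral coefficients in the box of size `H`, up to
`C * H ^ (N - η)` exceptions, where `N` is the number of coefficients and `η > 0`;
(2) for a proportion at least `1 - ε₁` of the elements of each residue class `c + Q b` with good
reduction at the primes dividing `Q`, if `Q` is divisible by all primes up to a bound `B(ε₁)`, and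
these curves are in addition semistable;
(3) for a positive proportion of all integral forms of degree `d`, semistable in addition. -/
theorem result (d : ℕ) (hd : 3 ≤ d) (ε : ℝ) (hε : 0 < ε) :
    (∃ C η : ℝ, 0 < η ∧ ∀ H : ℕ, 1 ≤ H →
      (Nat.card {a : Exponent d → ℤ // (∀ m, |a m| ≤ H) ∧ IsSmooth a ∧
        ¬ HasBound (((d : ℝ) - 1) * ((d : ℝ) - 2) / 2 / 2 + ε) a} : ℝ) ≤
          C * (H : ℝ) ^ ((Fintype.card (Exponent d) : ℝ) - η)) ∧
    (∀ ε₁ : ℝ, 0 < ε₁ → ∃ B : ℕ, ∀ Q : ℕ, 0 < Q → (∀ p : ℕ, p.Prime → p ≤ B → p ∣ Q) →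
      ∀ c : Exponent d → ℤ, (∀ p : ℕ, p.Prime → p ∣ Q → HasGoodReduction c p) →
        ∃ H₀ : ℕ, ∀ H : ℕ, H₀ ≤ H →
          (1 - ε₁) * (2 * (H : ℝ) + 1) ^ Fintype.card (Exponent d) ≤
            (Nat.card {b : Exponent d → ℤ // (∀ m, |b m| ≤ H) ∧
              IsSemistable (fun m => c m + Q * b m) ∧
              HasBound (((d : ℝ) - 1) * ((d : ℝ) - 2) / 2 / 2 + ε) (fun m => c m + Q * b m)} : ℝ)) ∧
    ∃ δ : ℝ, 0 < δ ∧ ∃ H₀ : ℕ, ∀ H : ℕ, H₀ ≤ H →
      δ * (2 * (H : ℝ) + 1) ^ Fintype.card (Exponent d) ≤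
        (Nat.card {a : Exponent d → ℤ // (∀ m, |a m| ≤ H) ∧ IsSemistable a ∧
          HasBound (((d : ℝ) - 1) * ((d : ℝ) - 2) / 2 / 2 + ε) a} : ℝ) := by
  obtain ⟨q1, q2, q3⟩ := Pool.Agent.Run7.h802.FH.plane_main2 Pool.Agent.Run7.h802.FH.allRes
    Pool.Agent.Run7.h802.FH.allRad2 Pool.Agent.Run7.h351.FH.t_NL Pool.Agent.Run7.h802.FH.allDen Pool.Agent.Run7.h212.FH.t_VOL
    (Pool.Agent.Run7.h216.FH.t_PLA Pool.Agent.Run7.h216.FH.t_SEP) Pool.Agent.Run7.h216.BP.smooth
    d hd ε hε
  refine ⟨?_, ?_, ?_⟩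
  · obtain ⟨C, η, hη, hC⟩ := q1
    refine ⟨C, η, hη, fun H hH => (Pool.Agent.Run7.h802.FH.nat_mono H _ _ ?_).trans (hC H hH)⟩
    intro a _ ha
    exact ⟨ha.1, fun hb => ha.2 (bound_of _ a hb)⟩
  · intro ε₁ hε₁
    obtain ⟨B, hB⟩ := q2 ε₁ hε₁
    refine ⟨B, fun Q hQ hQB c hc => ?_⟩
    obtain ⟨H₀, hH₀⟩ := hB Q hQ hQB c hc
    refine ⟨H₀, fun H hH => (hH₀ H hH).trans
      (Pool.Agent.Run7.h802.FH.nat_mono H _ _ ?_)⟩
    intro b _ hb
    exact ⟨semi_of _ hb.1 hb.2.1, bound_of _ _ hb.2.2⟩
  · obtain ⟨δ, hδ, H₀, hH₀⟩ := q3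
    refine ⟨δ, hδ, H₀, fun H hH => (hH₀ H hH).trans
      (Pool.Agent.Run7.h802.FH.nat_mono H _ _ ?_)⟩
    intro b _ hb
    exact ⟨semi_of _ hb.1 hb.2.1, bound_of _ _ hb.2.2⟩

end Pool.Agent.Results.MP_07b2d0_nt.PlaneCurveJacobians
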